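import Pool.Agent.N949.AD.StmA

/-!
# Project AD, part HEXA: the change of the area under hexagon moves (helper933 for helper949)
-/

set_option autoImplicit false

namespace Pool.Agent.N933.AD

open TH966.AK Pool.Agent.N949.AD

theorem ar_app : ∀ (L : List P) (x : P) (M : List P),
    ar (L ++ x :: M) = ar (L ++ [x]) + ar (x :: M)
  | [], x, M => by simp [ar]
  | [a], x, M => by simp [ar]
  | a :: b :: t, x, M => by
    have h := ar_app (b :: t) x M
    simp only [List.cons_append, ar] at h ⊢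
    rw [h]
    ring

theorem split (L R M : List P) (p r : P) :
    ar (L ++ (p :: (M ++ [r])) ++ R) = ar (L ++ [p]) + ar (p :: (M ++ [r])) + ar (r :: R) := by
  have e1 : L ++ (p :: (M ++ [r])) ++ R = L ++ p :: (M ++ r :: R) := by simp
  have e2 : p :: (M ++ r :: R) = (p :: M) ++ r :: R := rfl
  rw [e1, ar_app, e2, ar_app (p :: M) r R]
  simp only [List.cons_append]
  ring

theorem hexa : Pool.Agent.N949.AD.S_HEXA := by
  rintro c d s hs f hf U U' L R ⟨p, q, r, rfl, rfl, h1, h2, h3⟩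
  constructor
  · obtain ⟨c1, c2⟩ := Hex.ctr_cases p q r
    generalize Hex.ctr p q r = x at c1 c2 ⊢
    obtain ⟨p1, p2⟩ := p
    obtain ⟨q1, q2⟩ := q
    obtain ⟨r1, r2⟩ := r
    obtain ⟨x1, x2⟩ := x
    rw [Hex.A_iff] at h1 h2
    rw [Hex.ne_iff] at h3
    simp only [List.map_cons, List.map_nil, ar, hf, Prod.mk_sub_mk, add_zero, ne_eq] at *
    rcases hs with rfl | rfl <;>
    rcases h1 with ⟨h1, h1'⟩ | ⟨h1, h1'⟩ | ⟨h1, h1', h1''⟩ | ⟨h1, h1', h1''⟩ <;>
    rcases h2 with ⟨h2, h2'⟩ | ⟨h2, h2'⟩ | ⟨h2, h2', h2''⟩ | ⟨h2, h2', h2''⟩ <;>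
    rcases c2 with ⟨c2, c3⟩ | ⟨c2, c3⟩ <;>
    subst h1 <;> subst h1' <;> subst h2 <;> subst h2' <;> subst c1 <;> subst c3 <;>
    first
    | (exfalso; omega)
    | (left; ring1)
    | (right; ring1)
  · have e1 : ∀ L R : List P, (L ++ [p, q, r] ++ R).map f =
        L.map f ++ (f p :: ([f q] ++ [f r])) ++ R.map f := by
      intro L R
      simp
    have e2 : ∀ (L R : List P) (a b c : P), (L ++ [p, a, b, c, r] ++ R).map f =
        L.map f ++ (f p :: ([f a, f b, f c] ++ [f r])) ++ R.map f := by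
      intro L R a b c
      simp
    rw [e1, e2, split, split]
    simp only [List.map_cons, List.map_nil, List.cons_append, List.nil_append]
    ring

end Pool.Agent.N933.AD
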